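import Mathlib
import Pool.Agent.H74.G.R_seed8.R775.HL.LinDef

/-! Powers of linear maps whose eigenvalues are in the open unit disc tend to zero. -/

set_option autoImplicit false

open Polynomial Filter Topology

noncomputable section

namespace Pool.Agent.W5h63.AX

attribute [local instance] Matrix.linftyOpNormedRing Matrix.linftyOpNormedAlgebra

lemma cmat_decay {ι : Type*} [Fintype ι] [DecidableEq ι] [Nonempty ι] (M : Matrix ι ι ℂ)
    (h : ∀ μ ∈ spectrum ℂ M, ‖μ‖ < 1) : Tendsto (fun n : ℕ => ‖M ^ n‖) atTop (𝓝 0) := by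
  have h1 : spectralRadius ℂ M < (1 : NNReal) := by
    refine spectrum.spectralRadius_lt_of_forall_lt_of_nonempty (spectrum.nonempty M) ?_
    intro k hk
    have := h k hk
    exact_mod_cast this
  have h2 := spectrum.pow_nnnorm_pow_one_div_tendsto_nhds_spectralRadius M
  obtain ⟨r, hr1, hr2⟩ := ENNReal.lt_iff_exists_nnreal_btwn.1 h1
  have hr2' : r < 1 := by exact_mod_cast hr2
  have h3 : ∀ᶠ n : ℕ in atTop, ‖M ^ n‖ ≤ (r : ℝ) ^ n := by
    filter_upwards [h2.eventually (gt_mem_nhds hr1), eventually_gt_atTop 0] with n hn hn0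
    have hn0' : (0 : ℝ) < n := by exact_mod_cast hn0
    have h4 : ((‖M ^ n‖₊ : ENNReal)) < (r : ENNReal) ^ (n : ℝ) := by
      have := (ENNReal.rpow_lt_rpow_iff hn0').2 hn
      rwa [← ENNReal.rpow_mul, one_div, inv_mul_cancel₀ hn0'.ne', ENNReal.rpow_one] at this
    rw [ENNReal.rpow_natCast] at h4
    have h5 : ‖M ^ n‖₊ < r ^ n := by exact_mod_cast h4
    exact_mod_cast h5.le
  refine squeeze_zero' (Eventually.of_forall fun n => norm_nonneg _) h3 ?_
  exact tendsto_pow_atTop_nhds_zero_of_lt_one r.coe_nonneg (by exact_mod_cast hr2')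

lemma mat_decay {ι : Type*} [Fintype ι] [DecidableEq ι] (M : Matrix ι ι ℝ) (q : ℝ[X])
    (hq : aeval M q = 0) (hr : ∀ μ : ℂ, (q.map (algebraMap ℝ ℂ)).IsRoot μ → ‖μ‖ < 1) (i j : ι) :
    Tendsto (fun n : ℕ => (M ^ n) i j) atTop (𝓝 0) := by
  have : Nonempty ι := ⟨i⟩
  let Mc : Matrix ι ι ℂ := M.map (algebraMap ℝ ℂ)
  have h5 : aeval Mc (q.map (algebraMap ℝ ℂ)) = 0 := by
    have e := Polynomial.map_aeval_eq_aeval_map (S := Matrix ι ι ℝ)
      (U := Matrix ι ι ℂ) (φ := algebraMap ℝ ℂ) (ψ := (algebraMap ℝ ℂ).mapMatrix)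
      (by
        ext x i j
        simp [Matrix.algebraMap_matrix_apply]
        split_ifs <;> simp) q M
    rw [hq, map_zero] at e
    exact e.symm
  have h6 : ∀ μ ∈ spectrum ℂ Mc, ‖μ‖ < 1 := by
    intro μ hμ
    apply hr
    have h7 := spectrum.subset_polynomial_aeval Mc (q.map (algebraMap ℝ ℂ)) ⟨μ, hμ, rfl⟩
    rw [h5, spectrum.zero_eq] at h7
    exact h7
  have h8 := cmat_decay Mc h6
  have h9 : ∀ n : ℕ, ‖(M ^ n) i j‖ ≤ ‖Mc ^ n‖ := by
    intro n
    have e1 : Mc ^ n = (M ^ n).map (algebraMap ℝ ℂ) := by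
      have := map_pow (algebraMap ℝ ℂ).mapMatrix M n
      exact this.symm
    have e2 : ‖(Mc ^ n) i j‖ = ‖(M ^ n) i j‖ := by
      rw [e1, Matrix.map_apply]
      simp
    rw [← e2, Matrix.linfty_opNorm_def]
    have h10 : ‖(Mc ^ n) i j‖₊ ≤ ∑ j, ‖(Mc ^ n) i j‖₊ :=
      Finset.single_le_sum (f := fun j => ‖(Mc ^ n) i j‖₊) (fun _ _ => bot_le) (Finset.mem_univ j)
    have h11 : ∑ j, ‖(Mc ^ n) i j‖₊ ≤ Finset.univ.sup fun i => ∑ j, ‖(Mc ^ n) i j‖₊ :=
      Finset.le_sup (f := fun i => ∑ j, ‖(Mc ^ n) i j‖₊) (Finset.mem_univ i)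
    exact_mod_cast h10.trans h11
  exact squeeze_zero_norm h9 h8

/-- the powers of a linear map killed by a polynomial with all roots in the open disc tend to zero -/
theorem lin_decay {E : Type*} [NormedAddCommGroup E] [NormedSpace ℝ E] [FiniteDimensional ℝ E]
    (T : E →ₗ[ℝ] E) (q : ℝ[X]) (hq : aeval T q = 0)
    (hr : ∀ μ : ℂ, (q.map (algebraMap ℝ ℂ)).IsRoot μ → ‖μ‖ < 1) (v : E) :
    Tendsto (fun n : ℕ => (T ^ n) v) atTop (𝓝 0) := by
  classical
  let b := Module.finBasis ℝ E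
  let M := LinearMap.toMatrixAlgEquiv b T
  have h4 : aeval M q = 0 := by
    have e := Polynomial.map_aeval_eq_aeval_map (S := Module.End ℝ E)
      (U := Matrix _ _ ℝ) (φ := RingHom.id ℝ) (ψ := (LinearMap.toMatrixAlgEquiv b).toRingHom)
      (by
        ext x
        simp) q T
    rw [Polynomial.map_id] at e
    rw [hq, map_zero] at e
    exact e.symm
  have h5 : ∀ n : ℕ, (T ^ n) v = ∑ i, (∑ j, (M ^ n) i j * b.repr v j) • b i := by
    intro n
    have e1 : M ^ n = LinearMap.toMatrixAlgEquiv b (T ^ n) := by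
      rw [map_pow]
    rw [e1]
    conv_lhs => rw [← b.sum_repr ((T ^ n) v)]
    refine Finset.sum_congr rfl fun i _ => ?_
    congr 1
    have := LinearMap.toMatrix_mulVec_repr b b (T ^ n) v
    have h6 := congrFun this i
    rw [← h6]
    rfl
  have h6 : Tendsto (fun n : ℕ => ∑ i, (∑ j, (M ^ n) i j * b.repr v j) • b i) atTop
      (𝓝 (∑ i, (∑ j, 0 * b.repr v j) • b i)) := by
    refine tendsto_finsetSum _ fun i _ => ?_
    refine Tendsto.smul_const ?_ _
    refine tendsto_finsetSum _ fun j _ => ?_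
    exact (mat_decay M q h4 hr i j).mul_const _
  simp only [zero_mul, Finset.sum_const_zero, zero_smul] at h6
  exact h6.congr fun n => (h5 n).symm

end Pool.Agent.W5h63.AX
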