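import Mathlib
import Pool.Agent.H74.G.R_seed8.TH80.CLX.Defs
import Pool.Agent.H74.G.R_seed8.TH80.OMS.SymDefs
import Pool.Agent.H74.G.R_seed8.R189.NC.Defs

/-!
# Hyperbolic sets, Axiom A, and diffeomorphisms with homogeneous leaves: definitions

`V n = ℝⁿ`. Tangent vectors of the `n`-dimensional manifold `N` are elements of `V n`. Lengths of tangent
vectors are measured by means of a `C¹` immersion `e` of `N` into some `ℝᵐ`: the length of `v` is `|De v|`.
-/

set_option autoImplicit false

open Set
open scoped ContDiff Manifold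

noncomputable section

namespace Pool.Agent.W5h63.AX

open Pool.Agent.H718R2.G Pool.Agent.TH80.OMS Pool.Agent.TH80.CLX Pool.Agent.R189.NC

universe u

/-- the derivative of `f` at `x`, a linear map between the tangent spaces -/
def der (a b : ℕ) {M₁ : Type*} {M₂ : Type*} [TopologicalSpace M₁] [ChartedSpace (V a) M₁]
    [TopologicalSpace M₂] [ChartedSpace (V b) M₂] (f : M₁ → M₂) (x : M₁) : V a →L[ℝ] V b :=
  mfderiv (𝓡 a) (𝓡 b) f x

/-- the derivative of `e : N → ℝᵐ` at `x` on the tangent vector `v` -/
def dv (n : ℕ) {m : ℕ} {N : Type u} [TopologicalSpace N] [ChartedSpace (V n) N] (e : N → V m)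
    (x : N) (v : V n) : V m := der n m e x v

/-- the derivative of `F : N → N` at `x` on the tangent vector `v` -/
def df (n : ℕ) {N : Type u} [TopologicalSpace N] [ChartedSpace (V n) N] (F : N → N)
    (x : N) (v : V n) : V n := der n n F x v

/-- the velocity at `x` of the family of maps `Φ s`, `s ∈ ℝᵏ`, in the direction `s`: the derivative of
`a ↦ Φ a x` at `0` on `s` -/
def vel (n : ℕ) {k : ℕ} {N : Type u} [TopologicalSpace N] [ChartedSpace (V n) N]
    (Φ : V k → N → N) (x : N) (s : V k) : V n := der k n (fun a => Φ a x) 0 s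

/-- `e : N → ℝᵐ` is of class `C¹` -/
def C1 (n : ℕ) {m : ℕ} {N : Type u} [TopologicalSpace N] [ChartedSpace (V n) N]
    (e : N → V m) : Prop := ContMDiff (𝓡 n) (𝓡 m) 1 e

/-- The family `E` of subspaces of the tangent spaces at the points of the invariant set `K` is
continuous (the set of the pairs `(x, De_x v)`, `x ∈ K`, `v ∈ E x`, is closed) and invariant under the
derivative of the diffeomorphism `F`, and the iterates of `F` contract the vectors in `E` exponentially:
`|DF^k v| ≤ C μ^k |v|`. Here `|DF^k v|` is the norm of the derivative of `e ∘ F^k` at `x` on `v`. -/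
structure Contracted (n : ℕ) {m : ℕ} {N : Type u} [TopologicalSpace N] [ChartedSpace (V n) N]
    (F : N → N) (K : Set N) (e : N → V m) (E : N → Submodule ℝ (V n)) (C μ : ℝ) : Prop where
  mem : ∀ x ∈ K, F x ∈ K
  inv : ∀ x ∈ K, ∀ v, v ∈ E x ↔ df n F x v ∈ E (F x)
  closed : IsClosed {p : N × V m | p.1 ∈ K ∧ ∃ v ∈ E p.1, dv n e p.1 v = p.2}
  contr : ∀ x ∈ K, ∀ v ∈ E x, ∀ k : ℕ,
    ‖dv n (fun y => e (F^[k] y)) x v‖ ≤ C * μ ^ k * ‖dv n e x v‖

/-- The closed set `K` is hyperbolic for the diffeomorphism `F` with inverse `F'`: the tangent spaces at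
the points of `K` split as `Es x ⊕ Eu x`, the splitting is continuous and invariant, the vectors in `Es`
are contracted exponentially by the iterates of `F`, those in `Eu` by the iterates of `F'`. -/
def IsHyperbolic (n : ℕ) {N : Type u} [TopologicalSpace N] [ChartedSpace (V n) N]
    (F F' : N → N) (K : Set N) : Prop :=
  ∃ (m : ℕ) (e : N → V m) (Es Eu : N → Submodule ℝ (V n)) (C μ : ℝ), C1 n e ∧
    (∀ x v, dv n e x v = 0 → v = 0) ∧ 0 < μ ∧ μ < 1 ∧
    (∀ x ∈ K, IsCompl (Es x) (Eu x)) ∧ Contracted n F K e Es C μ ∧ Contracted n F' K e Eu C μ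

/-- Axiom A for the diffeomorphism `F` with inverse `F'`: the nonwandering set is hyperbolic and the
periodic points are dense in it. -/
def AxiomA (n : ℕ) {N : Type u} [TopologicalSpace N] [ChartedSpace (V n) N] (F F' : N → N) : Prop :=
  IsHyperbolic n F F' (Omega F) ∧ Omega F ⊆ closure (Per F)

/-- the value at `w` of the quadratic form with the matrix `B` -/
def qf {m : ℕ} (B : Fin m → Fin m → ℝ) (w : V m) : ℝ := ∑ i, ∑ j, B i j * w i * w j

/-- The closed set `K ⊆ O` is invariant under `F` and a union of orbits, all covered by one compact subset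
of the group `G`, and `F` is hyperbolic transversally to the orbits on `K`:

* `Φ s`, `s ∈ ℝᵏ`, is a `C¹` family of maps which moves the points inside their orbits, `Φ 0 = id`, with
  injective velocities on `K`;
* the continuous quadratic form `Q_x(v) = B_x (De v, De v)` (of any signature) on the tangent spaces does
  not change in the directions of the velocities of `Φ`, and it increases strictly under `DF` on all other
  vectors, at the points of `K`. -/
structure TrHyp (n : ℕ) {k m : ℕ} {N : Type u} [TopologicalSpace N] [ChartedSpace (V n) N]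
    {G : Type} [TopologicalSpace G] (F : N → N) (O : Set N) (act : G → N → N) (K : Set N)
    (Φ : V k → N → N) (e : N → V m) (B : N → Fin m → Fin m → ℝ) : Prop where
  closed : IsClosed K
  sub : K ⊆ O
  inv : ∀ x ∈ K, F x ∈ K
  sat : ∀ x ∈ K, ∀ g, act g x ∈ K
  cocompact : ∃ C : Set G, IsCompact C ∧ ∀ x ∈ K, ∀ g, ∃ c ∈ C, act g x = act c x
  fam : ContMDiff ((𝓡 k).prod (𝓡 n)) (𝓡 n) 1 (fun q : V k × N => Φ q.1 q.2)
  fam_zero : ∀ y, Φ 0 y = y
  along : ∀ s, ∀ y ∈ O, ∃ g, Φ s y = act g y
  free : ∀ x ∈ K, ∀ s, vel n Φ x s = 0 → s = 0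
  smooth : C1 n e
  cont : Continuous B
  basic : ∀ x ∈ K, ∀ v s, qf (B x) (dv n e x (v + vel n Φ x s)) = qf (B x) (dv n e x v)
  incr : ∀ x ∈ K, ∀ v, (∀ s, v ≠ vel n Φ x s) →
    qf (B x) (dv n e x v) < qf (B (F x)) (dv n e (F x) (df n F x v))

/-- The simply connected nilpotent Lie group `G` is given by the faithful unitriangular representation
`ι`, its Lie algebra is the image of `c : ℝᵏ → gl_d`, and the endomorphism `φ` of `G` has the differential
`A`: `φ (exp (c s)) = exp (c (A s))`. -/
structure IsExp {G : Type} [Group G] {d k : ℕ} (ι : G →* Md d) (c : V k →ₗ[ℝ] Md d)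
    (φ : G →* G) (A : V k →ₗ[ℝ] V k) : Prop where
  mem : ∀ X : Md d, (∃ s, c s = X) ↔ ∀ t : ℝ, ∃ g, ι g = NormedSpace.exp (t • X)
  log : ∀ g, ∃ s, ι g = NormedSpace.exp (c s)
  diff : ∀ s g, ι g = NormedSpace.exp (c s) → ι (φ g) = NormedSpace.exp (c (A s))

/-- The closed set `K` is invariant under `F` and hyperbolic transversally to compact nilmanifolds on
which `F` is affine: the simply connected nilpotent Lie group `G` acts smoothly on the open set `O ⊇ K`,
all its orbits in `O` are compact nilmanifolds, `F (g y) = φ(g) F(y)` on `O` with an endomorphism `φ` of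
`G`, and `K` is hyperbolic transversally to the orbits, where the family `Φ` is given on `K` by the action
of `exp (c s)`, so that its velocities span the tangent spaces of the orbits. Nothing is required of `φ`
and its differential `A`. -/
def NilHyp (n : ℕ) {N : Type u} [TopologicalSpace N] [ChartedSpace (V n) N] (F : N → N)
    (K : Set N) : Prop :=
  ∃ (G : Type) (_ : Group G) (_ : TopologicalSpace G) (_ : IsTopologicalGroup G) (d k m : ℕ)
    (ι : G →* Md d) (c : V k →ₗ[ℝ] Md d) (φ : G →* G) (A : V k →ₗ[ℝ] V k) (O : Set N)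
    (act : G → N → N) (Φ : V k → N → N) (e : N → V m) (B : N → Fin m → Fin m → ℝ),
    IsNilAction n N ι O act ∧ (∀ y ∈ O, IsNilPt ι act y) ∧ IsExp ι c φ A ∧
    (∀ y ∈ O, ∀ g, F (act g y) = act (φ g) (F y)) ∧ TrHyp n F O act K Φ e B ∧
    ∀ x ∈ K, ∀ s, ∃ g, ι g = NormedSpace.exp (c s) ∧ Φ s x = act g x

/-- The closed set `K` is invariant under `F` and hyperbolic transversally to the orbits of a compact Lie
group which acts smoothly on the open set `O ⊇ K` and commutes there with `F`. -/
def CptHyp (n : ℕ) {N : Type u} [TopologicalSpace N] [ChartedSpace (V n) N] (F : N → N)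
    (K : Set N) : Prop :=
  ∃ (G : Type) (_ : Group G) (_ : TopologicalSpace G) (_ : IsTopologicalGroup G)
    (_ : CompactSpace G) (q k m : ℕ) (ι : G →* Matrix (Fin q) (Fin q) ℂ) (O : Set N)
    (act : G → N → N) (Φ : V k → N → N) (e : N → V m) (B : N → Fin m → Fin m → ℝ),
    IsLieAction n N ι O act ∧ (∀ y ∈ O, ∀ g, F (act g y) = act g (F y)) ∧
    TrHyp n F O act K Φ e B

/-- the chain recurrent set: for every neighbourhood `W` of the diagonal there is a closed
`W`-pseudo-orbit through `z` -/
def CRec {N : Type u} [TopologicalSpace N] (F : N → N) : Set N :=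
  {z | ∀ W : Set (N × N), IsOpen W → (∀ x, (x, x) ∈ W) →
    ∃ (m : ℕ) (x : ℕ → N), 1 ≤ m ∧ x 0 = z ∧ x m = z ∧ ∀ i < m, (F (x i), x (i + 1)) ∈ W}

/-- The chain recurrent set of `F` is the disjoint union of finitely many closed sets, each of which is
hyperbolic transversally to compact nilmanifolds on which `F` is affine, or to the orbits of a compact
Lie group which acts near it and commutes with `F` (for instance of the trivial group: a hyperbolic
set). The groups and their dimensions may be different for the different sets. -/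
def HomHypCR (n : ℕ) {N : Type u} [TopologicalSpace N] [ChartedSpace (V n) N] (F : N → N) : Prop :=
  ∃ (ι : Type) (K : ι → Set N), Finite ι ∧ (∀ i, NilHyp n F (K i) ∨ CptHyp n F (K i)) ∧
    (∀ i j, i ≠ j → Disjoint (K i) (K j)) ∧ ⋃ i, K i = CRec F

end Pool.Agent.W5h63.AX
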