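import Mathlib
import Pool.Agent.H74.G.R_pool_sql_team_seeded_9f66d723.W5h63.AX.Cone
import Pool.Agent.H74.G.R_pool_sql_team_seeded_9f66d723.W5h63.AX.Split

/-! The splitting of the tangent bundle over the closure of the periodic points. -/

set_option autoImplicit false
set_option linter.unusedSectionVars false
set_option maxSynthPendingDepth 3

open Filter Topology Set Metric
open scoped ContDiff Manifold

noncomputable section

namespace Pool.Agent.W5h63.AX

open Pool.Agent.R774.Cl Pool.Agent.R774.ClStmt Pool.Agent.H718R2.G Pool.Agent.R775.HL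

universe u

variable {n m : ℕ} {N : Type u} [TopologicalSpace N] [ChartedSpace (V n) N] [IsManifold (𝓡 n) ∞ N]
  {F F' : N → N} {K : Set N} {e : N → V m} {b : N → V m →L[ℝ] V m →L[ℝ] ℝ}

lemma tendsto_clm {ι : Type*} {l : Filter ι} {G : Type*} [NormedAddCommGroup G] [NormedSpace ℝ G]
    {A : ι → V m →L[ℝ] G} {w : ι → V m} {A₀ : V m →L[ℝ] G} {w₀ : V m} (hA : Tendsto A l (𝓝 A₀))
    (hw : Tendsto w l (𝓝 w₀)) : Tendsto (fun j => A j (w j)) l (𝓝 (A₀ w₀)) := by
  have h1 : Continuous fun p : (V m →L[ℝ] G) × V m => p.1 p.2 :=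
    isBoundedBilinearMap_apply.continuous
  exact (h1.tendsto (A₀, w₀)).comp (hA.prodMk_nhds hw)

lemma dr_inv (hF : ContMDiff (𝓡 n) (𝓡 n) 1 F) (hF' : ContMDiff (𝓡 n) (𝓡 n) 1 F')
    (hr : ∀ x, F (F' x) = x) (x : N) (v : V n) :
    dr (V n) (V n) F (F' x) (dr (V n) (V n) F' x v) = v := by
  have h1 := dr_comp (E₁ := V n) (E₂ := V n) (E₃ := V n) (g := F) (f := F') (x := x)
    (hF.mdifferentiableAt one_ne) (hF'.mdifferentiableAt one_ne)
  have h2 : (fun y => F (F' y)) = fun y => y := funext hr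
  rw [h2] at h1
  have h3 := DFunLike.congr_fun h1 v
  rw [dr_id] at h3
  exact h3.symm

lemma quad_neg (e : N → V m) (b : N → V m →L[ℝ] V m →L[ℝ] ℝ) (x : N) (v : V n) :
    quad e (fun y => - b y) x v = - quad e b x v := rfl

/-- the inverse map with the negative form -/
lemma Cone.symm (h : Cone n F K e b) (hF' : ContMDiff (𝓡 n) (𝓡 n) 1 F')
    (hr : ∀ x, F (F' x) = x) (hK' : ∀ x ∈ K, F' x ∈ K) : Cone n F' K e (fun y => - b y) where
  smooth := hF'
  imm := h.imm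
  closed := h.closed
  inv := hK'
  cont := h.cont.neg
  incr := by
    intro x hx v hv
    rw [quad_neg, quad_neg, neg_lt_neg_iff]
    have h1 := h.incr (F' x) (hK' x hx) (dr (V n) (V n) F' x v) (by
      intro h0
      have h2 := dr_inv h.smooth hF' hr x v
      rw [h0, map_zero] at h2
      exact hv h2.symm)
    rwa [dr_inv h.smooth hF' hr, hr] at h1

/-- the contracted vectors form a closed set -/
lemma Cone.closed_Est [CompactSpace N] (h : Cone n F K e b) {ι : Type*} {l : Filter ι} [l.NeBot]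
    {p : ι → N} {s : ι → V n} {x : N} {w : V m} (hx : x ∈ K) (hp : ∀ᶠ j in l, p j ∈ K)
    (hs : ∀ᶠ j in l, s j ∈ Est (n := n) e F (p j)) (hpx : Tendsto p l (𝓝 x))
    (hw : Tendsto (fun j => dr (V n) (V m) e (p j) (s j)) l (𝓝 w)) :
    ∃ t ∈ Est (n := n) e F x, dr (V n) (V m) e x t = w := by
  have h1 : Tendsto (fun j => tr (n := n) e e (p j) (dr (V n) (V m) e (p j) (s j))) l
      (𝓝 (tr (n := n) e e x w)) :=
    tendsto_clm (((tr_cont h.imm h.imm.smooth).tendsto x).comp hpx) hw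
  have h2 : tr (n := n) e e x w = w := by
    refine tendsto_nhds_unique h1 (hw.congr fun j => ?_)
    rw [tr_apply h.imm]
  obtain ⟨t, rfl⟩ := (tr_self h.imm).1 h2
  refine ⟨t, (h.mem_Est hx).2 fun k => ?_, rfl⟩
  rw [← h.quad_iter k x t]
  have h3 := h.cont_iter k (x, dr (V n) (V m) e x t) hx
  have h4 : Tendsto (fun j => (p j, dr (V n) (V m) e (p j) (s j))) l
      (𝓝[{q : N × V m | q.1 ∈ K}] (x, dr (V n) (V m) e x t)) := by
    rw [tendsto_nhdsWithin_iff]
    exact ⟨hpx.prodMk_nhds hw, hp⟩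
  have h5 := Tendsto.comp h3 h4
  refine le_of_tendsto h5 ?_
  filter_upwards [hp, hs] with j hj hsj
  have h6 := (h.mem_Est hj).1 hsj k
  rw [← h.quad_iter k (p j) (s j)] at h6
  exact h6

/-- the angle between the contracted and the expanded vectors is bounded from below -/
lemma Cone.angle [CompactSpace N] (h : Cone n F K e b) (h' : Cone n F' K e (fun y => - b y)) :
    ∃ R : ℝ, 0 < R ∧ ∀ x ∈ K, ∀ s ∈ Est (n := n) e F x, ∀ u ∈ Est (n := n) e F' x,
      ‖dr (V n) (V m) e x s‖ + ‖dr (V n) (V m) e x u‖ ≤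
        R * ‖dr (V n) (V m) e x (s + u)‖ := by
  obtain ⟨c, C, hc, hC, hcC⟩ := h.consts
  obtain ⟨c', C', hc', hC', hcC'⟩ := h'.consts
  obtain ⟨B, hB⟩ := h.closed.isCompact.exists_bound_of_continuousOn h.cont
  have hB0 : 0 < max B 1 := lt_of_lt_of_le one_pos (le_max_right _ _)
  have hc0 : 0 < min c c' := lt_min hc hc'
  refine ⟨2 * max B 1 / min c c', by positivity, fun x hx s hs u hu => ?_⟩
  set ws := dr (V n) (V m) e x s with hws
  set wu := dr (V n) (V m) e x u with hwu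
  have e1 : dr (V n) (V m) e x (s + u) = ws + wu := map_add _ _ _
  rw [e1]
  have h1 : quad e b x s ≤ - (c * ‖ws‖ ^ 2) := by
    have h2 := (h.mem_Est hx).1 hs 1
    have h3 := (hcC x hx s).1
    rw [Function.iterate_one] at h2
    linarith
  have h2 : c' * ‖wu‖ ^ 2 ≤ quad e b x u := by
    have h2 := (h'.mem_Est hx).1 hu 1
    have h3 := (hcC' x hx u).1
    rw [Function.iterate_one] at h2
    rw [quad_neg] at h2
    rw [quad_neg, quad_neg] at h3
    linarith
  have h3 : quad e b x u - quad e b x s = (b x (ws + wu) (wu - ws) + b x (wu - ws) (ws + wu)) / 2 := by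
    unfold quad
    rw [← hws, ← hwu]
    simp only [map_add, map_sub, add_apply, sub_apply]
    ring
  have h4 : ‖b x‖ ≤ max B 1 := (hB x hx).trans (le_max_left _ _)
  have h5 : ∀ y z : V m, b x y z ≤ max B 1 * ‖y‖ * ‖z‖ := by
    intro y z
    calc b x y z ≤ ‖b x y z‖ := Real.le_norm_self _
      _ ≤ ‖b x‖ * ‖y‖ * ‖z‖ := (b x).le_opNorm₂ y z
      _ ≤ _ := by gcongr
  have h6 : ‖wu - ws‖ ≤ ‖ws‖ + ‖wu‖ := (norm_sub_le _ _).trans (by rw [add_comm])
  have h7 : quad e b x u - quad e b x s ≤ max B 1 * ‖ws + wu‖ * (‖ws‖ + ‖wu‖) := by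
    rw [h3]
    have h8 := h5 (ws + wu) (wu - ws)
    have h9 := h5 (wu - ws) (ws + wu)
    have h10 : max B 1 * ‖ws + wu‖ * ‖wu - ws‖ ≤ max B 1 * ‖ws + wu‖ * (‖ws‖ + ‖wu‖) := by
      gcongr
    have h11 : max B 1 * ‖wu - ws‖ * ‖ws + wu‖ = max B 1 * ‖ws + wu‖ * ‖wu - ws‖ := by ring
    linarith
  have h8 : min c c' * (‖ws‖ ^ 2 + ‖wu‖ ^ 2) ≤ quad e b x u - quad e b x s := by
    have h9 : min c c' * ‖ws‖ ^ 2 ≤ c * ‖ws‖ ^ 2 :=
      mul_le_mul_of_nonneg_right (min_le_left _ _) (sq_nonneg _)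
    have h10 : min c c' * ‖wu‖ ^ 2 ≤ c' * ‖wu‖ ^ 2 :=
      mul_le_mul_of_nonneg_right (min_le_right _ _) (sq_nonneg _)
    linarith
  have h9 : (‖ws‖ + ‖wu‖) ^ 2 ≤ 2 * (‖ws‖ ^ 2 + ‖wu‖ ^ 2) := by nlinarith [sq_nonneg (‖ws‖ - ‖wu‖)]
  have h10 : min c c' * (‖ws‖ + ‖wu‖) ^ 2 ≤ 2 * (max B 1 * ‖ws + wu‖ * (‖ws‖ + ‖wu‖)) := by
    nlinarith
  rcases (add_nonneg (norm_nonneg ws) (norm_nonneg wu)).eq_or_lt with h11 | h11
  · rw [← h11]
    positivity
  · have h12 : min c c' * (‖ws‖ + ‖wu‖) ≤ 2 * (max B 1 * ‖ws + wu‖) := by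
      by_contra hcon
      push Not at hcon
      nlinarith
    rw [div_mul_eq_mul_div, le_div_iff₀ hc0]
    linarith

/-- **The splitting in the limit.** -/
theorem Cone.split_closure [CompactSpace N] (h : Cone n F K e b)
    (h' : Cone n F' K e (fun y => - b y)) {P : Set N} (hP : P ⊆ K)
    (hs : ∀ p ∈ P, ∀ v : V n, ∃ s ∈ Est (n := n) e F p, ∃ u ∈ Est (n := n) e F' p, s + u = v)
    {x : N} (hx : x ∈ closure P) (v : V n) :
    ∃ s ∈ Est (n := n) e F x, ∃ u ∈ Est (n := n) e F' x, s + u = v := by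
  classical
  obtain ⟨R, hR, hang⟩ := h.angle h'
  have hxK : x ∈ K := h.closed.closure_subset_iff.2 hP hx
  choose! s hs1 u hu1 hsu using hs
  have hne : (𝓝[P] x).NeBot := mem_closure_iff_nhdsWithin_neBot.1 hx
  let l : Ultrafilter N := @Ultrafilter.of N (𝓝[P] x) hne
  have hl : (l : Filter N) ≤ 𝓝[P] x := @Ultrafilter.of_le N (𝓝[P] x) hne
  have hlx : Tendsto (fun p : N => p) (l : Filter N) (𝓝 x) := hl.trans nhdsWithin_le_nhds
  have hlP : ∀ᶠ p in (l : Filter N), p ∈ P := hl self_mem_nhdsWithin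
  set w := dr (V n) (V m) e x v with hw
  let vv : N → V n := fun p => pinv (dr (V n) (V m) e p) w
  have hvv : Tendsto (fun p => dr (V n) (V m) e p (vv p)) (l : Filter N) (𝓝 w) := by
    have h1 : Tendsto (fun p => tr (n := n) e e p w) (l : Filter N) (𝓝 (tr (n := n) e e x w)) :=
      tendsto_clm (((tr_cont h.imm h.imm.smooth).tendsto x).comp hlx) tendsto_const_nhds
    rw [(tr_self h.imm).2 ⟨v, rfl⟩] at h1
    exact h1
  have hbd : ∀ᶠ p in (l : Filter N), ‖dr (V n) (V m) e p (vv p)‖ ≤ ‖w‖ + 1 := by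
    have h1 := hvv.norm.eventually (gt_mem_nhds (lt_add_one ‖w‖))
    exact h1.mono fun p hp => hp.le
  have hsum : ∀ᶠ p in (l : Filter N), ‖dr (V n) (V m) e p (s p (vv p))‖ +
      ‖dr (V n) (V m) e p (u p (vv p))‖ ≤ R * (‖w‖ + 1) := by
    filter_upwards [hbd, hlP] with p hp1 hp2
    have h1 := hang p (hP hp2) _ (hs1 p hp2 (vv p)) _ (hu1 p hp2 (vv p))
    rw [hsu p hp2] at h1
    exact h1.trans (mul_le_mul_of_nonneg_left hp1 hR.le)
  have lim : ∀ f : N → V m, (∀ᶠ p in (l : Filter N), ‖f p‖ ≤ R * (‖w‖ + 1)) →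
      ∃ z, Tendsto f (l : Filter N) (𝓝 z) := by
    intro f hf
    obtain ⟨z, -, hz⟩ := (isCompact_closedBall (0 : V m) (R * (‖w‖ + 1))).ultrafilter_le_nhds
      (l.map f) (by
        rw [le_principal_iff]
        show ∀ᶠ p in (l : Filter N), f p ∈ closedBall (0 : V m) (R * (‖w‖ + 1))
        exact hf.mono fun p hp => by simpa using hp)
    exact ⟨z, hz⟩
  obtain ⟨zs, hzs⟩ := lim (fun p => dr (V n) (V m) e p (s p (vv p)))
    (hsum.mono fun p hp => le_trans (le_add_of_nonneg_right (norm_nonneg _)) hp)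
  obtain ⟨zu, hzu⟩ := lim (fun p => dr (V n) (V m) e p (u p (vv p)))
    (hsum.mono fun p hp => le_trans (le_add_of_nonneg_left (norm_nonneg _)) hp)
  obtain ⟨s', hs', hs2⟩ := h.closed_Est (l := (l : Filter N)) (p := fun p => p)
    (s := fun p => s p (vv p)) hxK (hlP.mono fun p hp => hP hp)
    (hlP.mono fun p hp => hs1 p hp (vv p)) hlx hzs
  obtain ⟨u', hu', hu2⟩ := h'.closed_Est (l := (l : Filter N)) (p := fun p => p)
    (s := fun p => u p (vv p)) hxK (hlP.mono fun p hp => hP hp)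
    (hlP.mono fun p hp => hu1 p hp (vv p)) hlx hzu
  refine ⟨s', hs', u', hu', ?_⟩
  have h1 : zs + zu = w := by
    refine tendsto_nhds_unique (hzs.add hzu) (hvv.congr' ?_)
    filter_upwards [hlP] with p hp
    rw [← map_add, hsu p hp]
  have h2 : dr (V n) (V m) e x (s' + u' - v) = 0 := by
    rw [map_sub, map_add, hs2, hu2, h1, ← hw, sub_self]
  exact sub_eq_zero.1 (h.imm.inj x _ h2)

/-- the derivatives of the iterates of the return map at a periodic point -/
lemma dr_per (hF : ContMDiff (𝓡 n) (𝓡 n) 1 F) {p : N} {j : ℕ} (hp : F^[j] p = p) (k : ℕ)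
    (v : V n) : F^[j * k] p = p ∧ dr (V n) (V n) F^[j * k] p v =
      ((dr (V n) (V n) F^[j] p : V n →ₗ[ℝ] V n) ^ k) v := by
  induction k with
  | zero => exact ⟨rfl, dr_id p v⟩
  | succ k ih =>
    obtain ⟨h1, h2⟩ := ih
    have h3 : F^[j * (k + 1)] = fun y => F^[j] (F^[j * k] y) := by
      funext y
      rw [Nat.mul_succ, Nat.add_comm, Function.iterate_add_apply]
    refine ⟨by rw [h3]; show F^[j] (F^[j * k] p) = p; rw [h1, hp], ?_⟩
    rw [h3, dr_comp (E₁ := V n) (E₂ := V n) (E₃ := V n)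
      ((cmd_iter hF j).mdifferentiableAt one_ne) ((cmd_iter hF (j * k)).mdifferentiableAt one_ne),
      pow_succ', Module.End.mul_apply, ← h2, ContinuousLinearMap.comp_apply, h1]
    rfl

lemma Cone.per_mem [CompactSpace N] (h : Cone n F K e b) {p : N} (hpK : p ∈ K) {j : ℕ}
    (hj : 1 ≤ j) (hp : F^[j] p = p) {v : V n}
    (hv : Tendsto (fun k : ℕ => ((dr (V n) (V n) F^[j] p : V n →ₗ[ℝ] V n) ^ k) v) atTop (𝓝 0)) :
    v ∈ Est e F p := by
  rw [h.mem_Est hpK]
  intro i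
  have h1 : Tendsto (fun k : ℕ => quad e b p (((dr (V n) (V n) F^[j] p : V n →ₗ[ℝ] V n) ^ k) v))
      atTop (𝓝 0) := by
    have h2 : Continuous fun w : V n => quad e b p w := by
      unfold quad
      fun_prop
    have h3 := (h2.tendsto 0).comp hv
    have h4 : quad e b p (0 : V n) = 0 := by
      unfold quad
      simp
    rw [h4] at h3
    exact h3
  refine ge_of_tendsto h1 ?_
  filter_upwards [eventually_ge_atTop i] with k hk
  obtain ⟨h5, h6⟩ := dr_per h.smooth hp k v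
  rw [← h6]
  have h7 := h.mono hpK v (hk.trans (Nat.le_mul_of_pos_left k hj))
  simp only [] at h7
  rwa [h5] at h7

/-- the splitting at hyperbolic periodic points -/
theorem Cone.split_per [CompactSpace N] (h : Cone n F K e b)
    (h' : Cone n F' K e (fun y => - b y)) (hl : ∀ x, F' (F x) = x) (hr : ∀ x, F (F' x) = x)
    {p : N} (hpK : p ∈ K) {j : ℕ} (hj : 1 ≤ j) (hp : F^[j] p = p)
    (hhyp : HypLin (dr (V n) (V n) F^[j] p : V n →ₗ[ℝ] V n)) (v : V n) :
    ∃ s ∈ Est (n := n) e F p, ∃ u ∈ Est (n := n) e F' p, s + u = v := by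
  have hl' : ∀ x, F'^[j] (F^[j] x) = x := (Function.LeftInverse.iterate hl j)
  have hr' : ∀ x, F^[j] (F'^[j] x) = x := (Function.LeftInverse.iterate hr j)
  have hp' : F'^[j] p = p := by
    conv_lhs => rw [← hp]
    exact hl' p
  have e1 : ∀ v, dr (V n) (V n) F'^[j] p (dr (V n) (V n) F^[j] p v) = v := by
    intro v
    have h1 := dr_inv (cmd_iter h'.smooth j) (cmd_iter h.smooth j) hl' p v
    rwa [hp] at h1
  have e2 : ∀ v, dr (V n) (V n) F^[j] p (dr (V n) (V n) F'^[j] p v) = v := by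
    intro v
    have h1 := dr_inv (cmd_iter h.smooth j) (cmd_iter h'.smooth j) hr' p v
    rwa [hp'] at h1
  let A : V n ≃ₗ[ℝ] V n := LinearEquiv.ofLinearMap (dr (V n) (V n) F^[j] p : V n →ₗ[ℝ] V n)
    (dr (V n) (V n) F'^[j] p : V n →ₗ[ℝ] V n) (LinearMap.ext e2) (LinearMap.ext e1)
  obtain ⟨P, -, -, hs, hu⟩ := split A hhyp
  refine ⟨P v, h.per_mem hpK hj hp (hs v), v - P v, h'.per_mem hpK hj hp' (hu v), ?_⟩
  rw [add_sub_cancel]

end Pool.Agent.W5h63.AX
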